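import Pool.Agent.Y808.LB.StmM

/-!
Job LB-FL: flat local homomorphisms with regular closed fibre.
-/

set_option autoImplicit false

open IsLocalRing

namespace Pool.Agent.Y77.LB

open Pool.Agent.Y808.LB

theorem exists_gens {A : Type} [CommRing A] [IsNoetherianRing A] (I : Ideal A) :
    ∃ (n : ℕ) (a : Fin n → A), Submodule.spanFinrank I = n ∧ I = Ideal.span (Set.range a) := by
  obtain ⟨s, hs, hs2⟩ := Submodule.FG.exists_span_finset_card_eq_spanFinrank
    (IsNoetherian.noetherian I)
  refine ⟨_, fun i => ((s.equivFinOfCardEq hs).symm i : A), rfl, ?_⟩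
  have h1 : Set.range (fun i => ((s.equivFinOfCardEq hs).symm i : A)) = (s : Set A) := by
    ext x
    constructor
    · rintro ⟨i, rfl⟩
      exact ((s.equivFinOfCardEq hs).symm i).2
    · intro hx
      exact ⟨s.equivFinOfCardEq hs ⟨x, hx⟩, by simp⟩
  rw [h1]
  exact hs2.symm

/-- FL -/
theorem t_FL : S_FL := by
  intro R B _ _ _ _ _ _ _ hflat hreg
  set I : Ideal B := (maximalIdeal R).map (algebraMap R B) with hI
  obtain ⟨k, a, hk, ha⟩ := exists_gens (maximalIdeal R)
  obtain ⟨s, wb, hs, hwb⟩ := exists_gens (maximalIdeal (B ⧸ I))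
  have hsurj : Function.Surjective (Ideal.Quotient.mk I) := Ideal.Quotient.mk_surjective
  choose w hw using fun i => hsurj (wb i)
  have hcomap : (maximalIdeal (B ⧸ I)).comap (Ideal.Quotient.mk I) = maximalIdeal B := by
    apply eq_maximalIdeal
    exact Ideal.comap_isMaximal_of_surjective _ hsurj
  have hmap : (maximalIdeal B).map (Ideal.Quotient.mk I) = maximalIdeal (B ⧸ I) := by
    rw [← hcomap, Ideal.map_comap_of_surjective _ hsurj]
  have hIspan : I = Ideal.span (Set.range (algebraMap R B ∘ a)) := by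
    rw [hI, ha, Ideal.map_span, ← Set.range_comp]
  have hgen : maximalIdeal B = Ideal.span (Set.range (algebraMap R B ∘ a) ∪ Set.range w) := by
    have e1 : maximalIdeal (B ⧸ I) = (Ideal.span (Set.range w)).map (Ideal.Quotient.mk I) := by
      rw [hwb, Ideal.map_span, ← Set.range_comp]
      congr 2
      funext i
      exact (hw i).symm
    rw [Ideal.span_union, ← hIspan, ← hcomap, e1, Ideal.comap_map_of_surjective _ hsurj,
      sup_comm]
    congr 1
    rw [← RingHom.ker_eq_comap_bot, Ideal.mk_ker]
  have hlies : (maximalIdeal B).LiesOver (maximalIdeal R) := by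
    constructor
    ext x
    rw [Ideal.under_def, Ideal.mem_comap, mem_maximalIdeal, mem_maximalIdeal, mem_nonunits_iff,
      mem_nonunits_iff, isUnit_map_iff]
  have hgd : Algebra.HasGoingDown R B := Algebra.HasGoingDown.of_flat
  have hh := Ideal.height_eq_height_add_of_liesOver_of_hasGoingDown (maximalIdeal R)
    (maximalIdeal B)
  rw [← hI, hmap] at hh
  have hR : ringKrullDim R = (k : WithBot ℕ∞) := by
    rw [← hk]
    exact IsRegularLocalRing.spanFinrank_maximalIdeal.symm
  have hBb : ringKrullDim (B ⧸ I) = (s : WithBot ℕ∞) := by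
    rw [← hs]
    exact IsRegularLocalRing.spanFinrank_maximalIdeal.symm
  refine ⟨_, _, a, w, ha, hR, hgen, ?_⟩
  rw [← maximalIdeal_height_eq_ringKrullDim, hh, WithBot.coe_add,
    maximalIdeal_height_eq_ringKrullDim, maximalIdeal_height_eq_ringKrullDim, hR, hBb,
    Nat.cast_add]

end Pool.Agent.Y77.LB
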